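import Pool.Agent.CatP.Two.Defs
import Pool.Agent.CatP.Odd.Defs

/-! Homogeneity of the witnesses. -/

namespace Pool.Agent.CatP

open MvPolynomial Pool.Agent.H91.Cat

theorem det_isHomogeneous {k σ : Type*} [Field k] {m : ℕ}
    (M : Matrix (Fin m) (Fin m) (MvPolynomial σ k)) (h : ∀ i j, (M i j).IsHomogeneous 1) :
    M.det.IsHomogeneous m := by
  rw [Matrix.det_apply]
  refine IsHomogeneous.sum _ _ _ fun s _ => ?_
  have h1 : (∏ i, M (s i) i).IsHomogeneous m := by
    have := IsHomogeneous.prod Finset.univ (fun i => M (s i) i) (fun _ => 1) (fun i _ => h _ _)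
    simpa using this
  rcases Int.units_eq_one_or (Equiv.Perm.sign s) with h2 | h2 <;> rw [h2]
  · simpa using h1
  · simpa using h1.neg

theorem fTwo_isHomogeneous (k : Type*) [Field k] {n : ℕ} (a b c e : Fin 3 → Fin n) :
    (Two.fTwo k a b c e).IsHomogeneous 3 :=
  det_isHomogeneous _ fun _ _ => isHomogeneous_X _ _

theorem fOdd_isHomogeneous (k : Type*) [Field k] (q : ℕ) :
    (Odd.fOdd k q).IsHomogeneous (q + 2) := by
  refine IsHomogeneous.sum _ _ _ fun s _ => ?_
  have h1 : (∏ b : Fin (q + 2), (X (Odd.blk fun j => finProdFinEquiv (s (b, j))) :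
      MvPolynomial (Expo ((q + 2) * (q + 2)) (q + 2)) k)).IsHomogeneous (q + 2) := by
    have := IsHomogeneous.prod (R := k) (Finset.univ : Finset (Fin (q + 2)))
      (fun b => (X (Odd.blk fun j => finProdFinEquiv (s (b, j))) :
      MvPolynomial (Expo ((q + 2) * (q + 2)) (q + 2)) k)) (fun _ => 1)
      (fun i _ => isHomogeneous_X _ _)
    simpa using this
  rcases Int.units_eq_one_or (Equiv.Perm.sign s) with h2 | h2 <;> rw [h2]
  · simpa using h1
  · simpa using h1.neg

end Pool.Agent.CatP
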