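import Pool.Agent.CatP.SatOf
import Pool.Agent.CatP.Two.Sat
import Pool.Agent.CatP.Two.NonMem
import Pool.Agent.CatP.Odd.SatOdd
import Pool.Agent.CatP.Odd.Kill
import Pool.Agent.CatP.Odd.NonZero

/-! Catalecticant minor ideals which are not saturated, in positive characteristic. -/

namespace Pool.Agent.CatP

open MvPolynomial Pool.Agent.H91.Cat

theorem not_saturated_two (k : Type*) [Field k] [CharP k 2] (h : 2 ≤ 4) :
    ¬ IsSaturated (Minors k 12 4 2 h 2) :=
  not_saturated_of_pow _ _ (Two.fTwo_not_mem k h) (Two.fTwo_sat k h _ _ _ _)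

theorem not_saturated_odd (k : Type*) [Field k] (p : ℕ) [Fact p.Prime] [CharP k p] (hp : p ≠ 2)
    (h : 1 ≤ p) : ¬ IsSaturated (Minors k (p * p) p 1 h (p - 1)) := by
  have hp1 : p.Prime := Fact.out
  obtain ⟨q, rfl⟩ : ∃ q, p = q + 2 := ⟨p - 2, by have := hp1.two_le; omega⟩
  have hq : Odd q := by
    have h1 : Odd (q + 2) := hp1.odd_of_ne_two hp
    rcases h1 with ⟨m, hm⟩
    exact ⟨m - 1, by omega⟩
  have hfac : (((q + 1).factorial : ℕ) : k) ≠ 0 := by
    intro h0
    rw [CharP.cast_eq_zero_iff k (q + 2)] at h0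
    have := (hp1.dvd_factorial).mp h0
    omega
  have hp0 : ((q + 2 : ℕ) : k) = 0 := CharP.cast_eq_zero k (q + 2)
  refine not_saturated_of_pow _ (Odd.fOdd k q) ?_ (Odd.fOdd_sat k hq hfac h)
  intro hmem
  exact Odd.ptE_fOdd hq hfac (Odd.ptE_minors hq hp0 h _ hmem)

end Pool.Agent.CatP
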