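import Pool.Agent.CatP.Zmap

/-! A criterion for an ideal not to be saturated. -/

namespace Pool.Agent.CatP

open MvPolynomial Pool.Agent.H91.Cat

/-- An ideal which misses `f`, but contains the product of `f` and some power of each variable,
is not saturated. -/
theorem not_saturated_of_pow {k : Type*} [Field k] {n d : ℕ}
    (I : Ideal (MvPolynomial (Expo n d) k)) (f : MvPolynomial (Expo n d) k) (hf : f ∉ I)
    (h : ∀ γ : Expo n d, ∃ N : ℕ, X γ ^ N * f ∈ I) : ¬ IsSaturated I := by
  intro hsat
  apply hf
  apply hsat
  let J : Ideal (MvPolynomial (Expo n d) k) :=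
    { carrier := {q | q * f ∈ I}
      add_mem' := by
        intro a b ha hb
        show (a + b) * f ∈ I
        rw [add_mul]
        exact I.add_mem ha hb
      zero_mem' := by
        show 0 * f ∈ I
        rw [zero_mul]
        exact I.zero_mem
      smul_mem' := by
        intro c x hx
        show c * x * f ∈ I
        rw [mul_assoc]
        exact I.mul_mem_left c hx }
  have h1 : irrelevant k n d ≤ J.radical := by
    rw [irrelevant, Ideal.span_le]
    rintro _ ⟨γ, rfl⟩
    obtain ⟨N, hN⟩ := h γ
    exact ⟨N, hN⟩
  have h2 : (irrelevant k n d).FG := Submodule.fg_span (Set.finite_range X)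
  obtain ⟨m, hm⟩ := Ideal.exists_pow_le_of_le_radical_of_fg h1 h2
  exact ⟨m, fun g hg => hm hg⟩

end Pool.Agent.CatP
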