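import Pool.Agent.CatP.Homog
import Pool.Agent.CatP.Main
import Pool.Agent.H91.Final

/-! Homogeneous witnesses against saturation, in every characteristic. -/

namespace Pool.Agent.CatP

open MvPolynomial Pool.Agent.H91.Cat

/-- There is a form of degree `e` which is not in the ideal of the `(r+1) x (r+1)` minors of the
`(i, d-i)` catalecticant matrix in `n` variables, and whose product with the `m`-th power of the
irrelevant ideal is contained in that ideal, for some `m ≥ 1`. -/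
def Witness (k : Type*) [Field k] (n d i r e : ℕ) (h : i ≤ d) : Prop :=
  ∃ f : MvPolynomial (Expo n d) k, f.IsHomogeneous e ∧ f ∉ Minors k n d i h r ∧
    ∃ m : ℕ, 1 ≤ m ∧ ∀ g ∈ irrelevant k n d ^ m, g * f ∈ Minors k n d i h r

theorem Witness.not_saturated {k : Type*} [Field k] {n d i r e : ℕ} {h : i ≤ d}
    (H : Witness k n d i r e h) : ¬ IsSaturated (Minors k n d i h r) := by
  obtain ⟨f, -, hf, m, -, hm⟩ := H
  exact fun hs => hf (hs f ⟨m, hm⟩)

theorem witness_of_pow {k : Type*} [Field k] {n d i r e : ℕ} {h : i ≤ d}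
    (f : MvPolynomial (Expo n d) k) (he : f.IsHomogeneous e) (hf : f ∉ Minors k n d i h r)
    (hp : ∀ γ : Expo n d, ∃ N : ℕ, X γ ^ N * f ∈ Minors k n d i h r) :
    Witness k n d i r e h := by
  have h1 : irrelevant k n d ≤ ((Minors k n d i h r).colon (Ideal.span {f} : Set _)).radical := by
    rw [irrelevant, Ideal.span_le]
    rintro _ ⟨γ, rfl⟩
    obtain ⟨N, hN⟩ := hp γ
    refine ⟨N, ?_⟩
    rw [Submodule.mem_colon]
    intro p hp
    obtain ⟨c, rfl⟩ := Ideal.mem_span_singleton'.mp hp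
    rw [smul_eq_mul, ← mul_assoc, mul_comm _ c, mul_assoc]
    exact Ideal.mul_mem_left _ _ hN
  have h2 : (irrelevant k n d).FG := Submodule.fg_span (Set.finite_range X)
  obtain ⟨m, hm⟩ := Ideal.exists_pow_le_of_le_radical_of_fg h1 h2
  refine ⟨f, he, hf, m + 1, Nat.le_add_left _ _, fun g hg => ?_⟩
  have h3 := hm (Ideal.pow_le_pow_right (Nat.le_succ m) hg)
  rw [Submodule.mem_colon] at h3
  simpa using h3 f (Ideal.mem_span_singleton_self f)

theorem witness_zero (k : Type*) [Field k] [CharZero k] (h : 2 ≤ 4) :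
    Witness k 7 4 2 6 7 h := by
  refine witness_of_pow (Cpol k) (Cpol_homogeneous k) (Cpol_not_mem_charZero k h) fun γ =>
    ⟨1, ?_⟩
  rw [pow_one]
  exact X_mul_mem k h (by norm_num) γ

theorem witness_two (k : Type*) [Field k] [CharP k 2] (h : 2 ≤ 4) : Witness k 12 4 2 2 3 h :=
  witness_of_pow _ (fTwo_isHomogeneous k _ _ _ _) (Two.fTwo_not_mem k h)
    (Two.fTwo_sat k h _ _ _ _)

theorem witness_odd (k : Type*) [Field k] (p : ℕ) (hp1 : p.Prime) [CharP k p] (hp : p ≠ 2)
    (h : 1 ≤ p) : Witness k (p * p) p 1 (p - 1) p h := by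
  obtain ⟨q, rfl⟩ : ∃ q, p = q + 2 := ⟨p - 2, by have := hp1.two_le; omega⟩
  have hq : Odd q := by
    have h1 : Odd (q + 2) := hp1.odd_of_ne_two hp
    rcases h1 with ⟨m, hm⟩
    exact ⟨m - 1, by omega⟩
  have hfac : (((q + 1).factorial : ℕ) : k) ≠ 0 := by
    intro h0
    rw [CharP.cast_eq_zero_iff k (q + 2)] at h0
    have := (hp1.dvd_factorial).mp h0
    omega
  have hp0 : ((q + 2 : ℕ) : k) = 0 := CharP.cast_eq_zero k (q + 2)
  refine witness_of_pow (Odd.fOdd k q) (fOdd_isHomogeneous k q) ?_ (Odd.fOdd_sat k hq hfac h)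
  intro hmem
  exact Odd.ptE_fOdd hq hfac (Odd.ptE_minors hq hp0 h _ hmem)

end Pool.Agent.CatP
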