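import Pool.Agent.H91.CatDefs
import Pool.Agent.H91.Gram

/-! The linear functional attached to a point of the scheme of catalecticant matrices, and the
vanishing of the determinants of its values when all minors vanish. -/

namespace Pool.Agent.CatP

open MvPolynomial Pool.Agent.H91.Cat

instance (n d : ℕ) : DecidableEq (Expo n d) :=
  inferInstanceAs (DecidableEq {γ : Fin n → ℕ // ∑ a, γ a = d})

instance (n d : ℕ) : Finite (Expo n d) := by
  refine Finite.of_injective (β := Fin n → Fin (d + 1))
    (fun γ a => ⟨γ.1 a, ?_⟩) ?_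
  · have h1 : γ.1 a ≤ ∑ a, γ.1 a := Finset.single_le_sum (fun _ _ => Nat.zero_le _)
      (Finset.mem_univ a)
    have h2 := γ.2
    omega
  · intro γ γ' h
    refine Subtype.ext (funext fun a => ?_)
    have := congrFun h a
    simpa using this

/-- An exponent vector of degree `e` as an element of `Expo n e`. -/
def toExpo {n e : ℕ} (m : Fin n →₀ ℕ) (h : ∑ a, m a = e) : Expo n e := ⟨m, h⟩

/-- An element of `Expo n e` as a finitely supported function. -/
noncomputable def ofExpo {n e : ℕ} (γ : Expo n e) : Fin n →₀ ℕ :=
  Finsupp.equivFunOnFinite.symm γ.1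

theorem ofExpo_apply {n e : ℕ} (γ : Expo n e) (x : Fin n) : ofExpo γ x = γ.1 x := rfl

theorem ofExpo_toExpo {n e : ℕ} (m : Fin n →₀ ℕ) (h : ∑ a, m a = e) :
    ofExpo (toExpo m h) = m := by
  ext x
  rfl

theorem toExpo_ofExpo {n e : ℕ} (γ : Expo n e) (h : ∑ a, ofExpo γ a = e) :
    toExpo (ofExpo γ) h = γ := rfl

theorem sum_ofExpo {n e : ℕ} (γ : Expo n e) : ∑ a, ofExpo γ a = e := γ.2

variable {k : Type*} [Field k] {n d : ℕ} {A : Type*} [CommRing A]

/-- The value of a monomial: the value of the variable attached to it if the degree is `d`, and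
zero otherwise. -/
noncomputable def zval (φ : MvPolynomial (Expo n d) k →+* A) (m : Fin n →₀ ℕ) : A :=
  if h : ∑ a, m a = d then φ (X (toExpo m h)) else 0

/-- The linear functional which sends a monomial of degree `d` to the value of the variable
attached to it, and all other monomials to zero. -/
noncomputable def Zmap (φ : MvPolynomial (Expo n d) k →+* A) : MvPolynomial (Fin n) A →ₗ[A] A :=
  (MvPolynomial.basisMonomials (Fin n) A).constr A (zval φ)

theorem Zmap_monomial (φ : MvPolynomial (Expo n d) k →+* A) (m : Fin n →₀ ℕ) (a : A) :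
    Zmap φ (monomial m a) = a * zval φ m := by
  have h1 : monomial m a = a • (MvPolynomial.basisMonomials (Fin n) A) m := by
    simp [MvPolynomial.smul_monomial]
  rw [h1, map_smul, Zmap, Module.Basis.constr_basis, smul_eq_mul]

theorem Zmap_monomial_one (φ : MvPolynomial (Expo n d) k →+* A) (γ : Expo n d) :
    Zmap φ (monomial (ofExpo γ) 1) = φ (X γ) := by
  rw [Zmap_monomial, one_mul, zval, dif_pos (sum_ofExpo γ), toExpo_ofExpo]

theorem coeff_expo_monomial {e : ℕ} (α : Expo n e) (m : Fin n →₀ ℕ) (a : A) :
    (monomial m a).coeff (ofExpo α) =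
      if h : ∑ x, m x = e then (if α = toExpo m h then a else 0) else 0 := by
  classical
  rw [coeff_monomial]
  by_cases h : ∑ x, m x = e
  · rw [dif_pos h]
    by_cases h2 : α = toExpo m h
    · subst h2
      rw [if_pos rfl, if_pos]
      exact (ofExpo_toExpo m h).symm
    · rw [if_neg h2, if_neg]
      intro h3
      apply h2
      refine Subtype.ext (funext fun x => ?_)
      change α.1 x = m x
      rw [h3]
      rfl
  · rw [dif_neg h, if_neg]
    intro h3
    apply h
    rw [h3]
    exact sum_ofExpo α

theorem Zmap_mul_monomial {i : ℕ} [Fintype (Expo n i)]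
    [Fintype (Expo n (d - i))] (h : i ≤ d)
    (φ : MvPolynomial (Expo n d) k →+* A) (m m' : Fin n →₀ ℕ) (hm : ∑ x, m x = i) (a b : A) :
    Zmap φ (monomial m a * monomial m' b) =
      ∑ α : Expo n i, (monomial m a).coeff (ofExpo α) *
        ∑ β : Expo n (d - i), φ (X (Expo.add h α β)) * (monomial m' b).coeff (ofExpo β) := by
  classical
  rw [monomial_mul, Zmap_monomial]
  simp_rw [coeff_expo_monomial]
  rw [Fintype.sum_eq_single (toExpo m hm)]
  · rw [dif_pos hm, if_pos rfl]
    by_cases hm' : ∑ x, m' x = d - i
    · rw [Fintype.sum_eq_single (toExpo m' hm')]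
      · rw [dif_pos hm', if_pos rfl]
        have h1 : ∑ x, (m + m') x = d := by
          simp only [Finsupp.add_apply, Finset.sum_add_distrib, hm, hm']
          omega
        rw [zval, dif_pos h1]
        have h2 : toExpo (m + m') h1 = Expo.add h (toExpo m hm) (toExpo m' hm') := by
          refine Subtype.ext (funext fun x => ?_)
          rfl
        rw [← h2]
        ring
      · intro β hβ
        rw [dif_pos hm', if_neg hβ, mul_zero]
    · have h1 : ¬ ∑ x, (m + m') x = d := by
        simp only [Finsupp.add_apply, Finset.sum_add_distrib, hm]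
        omega
      rw [zval, dif_neg h1, mul_zero]
      symm
      rw [Finset.sum_eq_zero, mul_zero]
      intro β _
      rw [dif_neg hm', mul_zero]
  · intro α hα
    rw [dif_pos hm, if_neg hα, zero_mul]

theorem Zmap_mul {i : ℕ} [Fintype (Expo n i)]
    [Fintype (Expo n (d - i))] (h : i ≤ d)
    (φ : MvPolynomial (Expo n d) k →+* A) (R C : MvPolynomial (Fin n) A)
    (hR : R.IsHomogeneous i) :
    Zmap φ (R * C) =
      ∑ α : Expo n i, R.coeff (ofExpo α) *
        ∑ β : Expo n (d - i), φ (X (Expo.add h α β)) * C.coeff (ofExpo β) := by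
  classical
  have step : ∀ (s : Finset (Fin n →₀ ℕ)) (c : (Fin n →₀ ℕ) → A),
      (∀ m ∈ s, ∑ x, m x = i) → ∀ C : MvPolynomial (Fin n) A,
      Zmap φ ((∑ m ∈ s, monomial m (c m)) * C) =
      ∑ α : Expo n i, (∑ m ∈ s, monomial m (c m)).coeff (ofExpo α) *
        ∑ β : Expo n (d - i), φ (X (Expo.add h α β)) * C.coeff (ofExpo β) := by
    intro s c
    induction s using Finset.induction_on with
    | empty => intro _ C; simp
    | insert m s hms ih =>
      intro hs C
      rw [Finset.sum_insert hms, add_mul, map_add,
        ih (fun m' hm' => hs m' (Finset.mem_insert_of_mem hm'))]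
      simp_rw [coeff_add, add_mul]
      rw [Finset.sum_add_distrib]
      congr 1
      have hm := hs m (Finset.mem_insert_self _ _)
      induction C using MvPolynomial.induction_on' with
      | monomial m' b => exact Zmap_mul_monomial h φ m m' hm _ _
      | add f g h1 h2 =>
        rw [mul_add, map_add, h1, h2, ← Finset.sum_add_distrib]
        refine Finset.sum_congr rfl fun α _ => ?_
        rw [← mul_add, ← Finset.sum_add_distrib]
        congr 1
        refine Finset.sum_congr rfl fun β _ => ?_
        rw [coeff_add, mul_add]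
  have h1 := step R.support (fun m => R.coeff m) (by
    intro m hm
    have := hR (mem_support_iff.mp hm)
    rw [← this]
    simp [Finsupp.weight_apply, Finsupp.sum_fintype]) C
  rwa [support_sum_monomial_coeff] at h1

/-- All determinants of values vanish if all minors do. -/
theorem det_Zmap_eq_zero {i r : ℕ} (h : i ≤ d) (φ : MvPolynomial (Expo n d) k →+* A)
    (hφ : ∀ q ∈ Minors k n d i h r, φ q = 0)
    (R C : Fin (r + 1) → MvPolynomial (Fin n) A) (hR : ∀ a, (R a).IsHomogeneous i) :
    (Matrix.of fun a b => Zmap φ (R a * C b)).det = 0 := by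
  classical
  have : Fintype (Expo n i) := Fintype.ofFinite _
  have : Fintype (Expo n (d - i)) := Fintype.ofFinite _
  set N : Matrix (Expo n i) (Expo n (d - i)) A := (catMatrix k n d i h).map φ with hN
  have hN0 : ∀ (f : Fin (r + 1) → Expo n i) (g : Fin (r + 1) → Expo n (d - i)),
      (N.submatrix f g).det = 0 := by
    intro f g
    by_cases hf : Function.Injective f
    · by_cases hg : Function.Injective g
      · have h1 : N.submatrix f g = ((catMatrix k n d i h).submatrix f g).map φ := rfl
        rw [h1, ← RingHom.mapMatrix_apply, ← RingHom.map_det]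
        exact hφ _ (Ideal.subset_span ⟨⟨f, hf⟩, ⟨g, hg⟩, rfl⟩)
      · unfold Function.Injective at hg
        push Not at hg
        obtain ⟨a, b, hab, hne⟩ := hg
        refine Matrix.det_zero_of_column_eq hne fun l => ?_
        rw [Matrix.submatrix_apply, Matrix.submatrix_apply, hab]
    · unfold Function.Injective at hf
      push Not at hf
      obtain ⟨a, b, hab, hne⟩ := hf
      refine Matrix.det_zero_of_row_eq hne ?_
      funext l
      rw [Matrix.submatrix_apply, Matrix.submatrix_apply, hab]
  set P : Matrix (Fin (r + 1)) (Expo n i) A := Matrix.of fun a α => (R a).coeff (ofExpo α) with hP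
  set Q : Matrix (Expo n (d - i)) (Fin (r + 1)) A :=
    Matrix.of fun β b => (C b).coeff (ofExpo β) with hQ
  have key : (Matrix.of fun a b => Zmap φ (R a * C b)) = P * (N.map (algebraMap A A) * Q) := by
    ext a b
    rw [Matrix.of_apply, Zmap_mul h φ (R a) (C b) (hR a)]
    rfl
  rw [key]
  exact Pool.Agent.H91.det_gram_zero N hN0 P Q

end Pool.Agent.CatP
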